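import Pool.Agent.P8H79.QA.Classes

/-!
# Infinitely many maximal quasi-arithmetic reflection groups in `Isom(ℍ³)`

The finiteness question for maximal quasi-arithmetic reflection groups in dimension three has a
negative answer.  The groups are constructed from the chain of polyhedra `P m` obtained by gluing
`m` copies of one truncated tetrahedron: the reflection groups of the `P m` are defined over `ℚ`,
every reflection group which contains one of them (with `m ≥ 5`) is defined over `ℚ` as well, each
of them is contained in a maximal reflection group, and a maximal reflection group contains, up to
conjugation, only finitely many of them.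
-/

set_option autoImplicit false

open Matrix Pool.Agent.P8H79.QA

namespace Pool.Agent.Results.MP_61642b_gt.InfinitelyMany

/-- There are infinitely many pairwise non-conjugate maximal quasi-arithmetic reflection groups in
`Isom(ℍ³)`. -/
theorem result : ∃ M : ℕ → Subgroup (GL (Fin 4) ℝ),
    (∀ n, IsMaximalReflectionGroup (M n) ∧ IsQuasiArithmetic (M n)) ∧
    ∀ n k, n ≠ k → ¬ ∃ c ∈ IsomH3, M k = (M n).map (MulAut.conj c).toMonoidHom :=
  infinitely_many

end Pool.Agent.Results.MP_61642b_gt.InfinitelyMany
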